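import Pool.Agent.Helper35.HC.StB
import Pool.Agent.Helper35.HC.ScD

/-!
# Module INT of project HC: the region at the initial time
-/

set_option autoImplicit false

namespace Helper88.HC

open Helper35.HC Helper35.HSF Helper35.MS Helper35.PI Helper35.PI2 Helper32.CL
open scoped ContDiff Manifold Topology ENNReal BigOperators
open MeasureTheory Set Filter

theorem hINT (hINA : StINA) (hPBR : StPBR) (hSPJ : StSPJ) (hGCH : StGCH) (hC1 : StC1) :
    StINT := by
  intro n hn cK E D B c hHK M _ _ _ J F hS t τ ht hτ hb q z hz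
  have h0 : 0 < rr n t := hS.r0 t ht
  have hn0 : (0 : ℝ) < n := by
    have : 0 < n := by omega
    exact_mod_cast this
  obtain ⟨hK0, hE0, -⟩ := hHK.pos
  obtain ⟨L, hL⟩ := hC1 n (n + 3)
    (fun i => dv1 (loc (n := n) F q t) (chartAt (EE n) q q) i) (hS.mcf.imm q t ht)
  obtain ⟨u, θ, hG, -, -⟩ := hGCH n (n + 3) M J F hS.mcf q t ht L hL
  obtain ⟨hp1, -, hp3⟩ := hPBR n (n + 3) M J F hS.mcf.toIsImmJ q t ht L u θ hG
    (jgg u (0, t)) (jggg u (0, t)) rfl rfl
  obtain ⟨hsym, -, hAL, hLx, hAx, -, hnx, -, -, -, hth, hx, -, -⟩ :=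
    hSPJ n (by omega) M J F hS q t ht L u θ hG (jgg u (0, t)) (jggg u (0, t)) rfl rfl
  obtain ⟨P, Q, β, hOP, hzv, -⟩ := hp1 z hz
  have hr : 0 < 1 / rr n t := by positivity
  obtain ⟨g1, g2, g3, g4⟩ := hINA n (by omega) (jgg u (0, t)) (1 / rr n t) τ L (F q t) hsym hr
    (by rw [hnx, one_div_one_div]) hLx hAL hAx (by
      intro c hc
      obtain ⟨c', h1, h2⟩ := hp3 c hc
      rw [← h2]
      have h3 := hb q c' h1
      rw [mul_one_div, le_div_iff₀ h0]
      linarith) (xN n F q t) hx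
  have hs := sINI hHK (xN n F q t) τ g1 g2 hτ
  have h5 : z ≤ τ * (1 / rr n t) := by
    rw [hzv]
    exact g4 P Q hOP
  have h6 : E / n * thN n F q t ≤ E / n * (2 * n * ((τ - xN n F q t) * (1 / rr n t))) := by
    rw [hth]
    exact mul_le_mul_of_nonneg_left g3 (by positivity)
  refine lt_of_le_of_lt ?_ hs
  calc rr n t * (z + E / n * thN n F q t)
      ≤ rr n t * (τ * (1 / rr n t) + E / n * (2 * n * ((τ - xN n F q t) * (1 / rr n t)))) :=
        mul_le_mul_of_nonneg_left (add_le_add h5 h6) h0.le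
    _ = τ + 2 * E * (τ - xN n F q t) := by
        field_simp

end Helper88.HC
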